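import Mathlib
import Pool.Agent.K4H14.LT.Few
import Pool.Agent.K4H14.QT.Curves

/-!
# Lang-Trotter counts of all but few quadratic twists

Part 1 is on the curves `y² = f_i(x)`, `f_i ∈ ℤ[x]`, and their quadratic twists `D y² = f_i(x)`;
the primes with a given vector `t ≠ 0` of traces are counted. For one monic cubic `f` these are the
elliptic curves `E : y² = f(x)` and `E_D`, and `a_p(E_D) = t` is the condition of the Lang-Trotter
conjecture. Part 2 is on an arbitrary sequence of classes `a_p` in a set with a map `neg`, and the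
twisted classes: `a_p` if `(D/p) = 1`, and `neg a_p` if `(D/p) = -1`.
-/

set_option autoImplicit false

namespace Pool.Agent.Results.MP_f1937f_nt.AllButRootManyTwists

open Finset Polynomial Filter

/-- The number of the solutions `(x, y)` of `D y² = f(x)` modulo `p`. -/
noncomputable def points (D : ℤ) (f : ℤ[X]) (p : ℕ) : ℕ :=
  Nat.card {P : ZMod p × ZMod p // (D : ZMod p) * P.2 ^ 2 = (f.map (Int.castRingHom (ZMod p))).eval P.1}

/-- `p` is an odd prime that does not divide `D`, and all `f_i` are separable modulo `p`: the twists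
`D y² = f_i(x)` have good reduction at `p`. -/
def Good {r : ℕ} (D : ℤ) (f : Fin r → ℤ[X]) (p : ℕ) : Prop :=
  p.Prime ∧ p ≠ 2 ∧ ¬ (p : ℤ) ∣ D ∧ ∀ i, ((f i).map (Int.castRingHom (ZMod p))).Separable

open Classical in
/-- The number of the good primes `p < x` with `p % q = m` such that for all `i` the trace
`p - points D (f i) p` of `D y² = f_i(x)` at `p` is `t i`. -/
noncomputable def count {r : ℕ} (D : ℤ) (f : Fin r → ℤ[X]) (t : Fin r → ℤ) (q m x : ℕ) : ℕ :=
  ((range x).filter (fun p => Good D f p ∧ p % q = m ∧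
    ∀ i, (p : ℤ) - (points D (f i) p : ℤ) = t i)).card

open Classical in
/-- The number of the odd primes `p < x` with `p % q = m` such that the class of the twist by `D` is
`t`: `(D/p) = 1` and `a p = t`, or `(D/p) = -1` and `neg (a p) = t`. -/
noncomputable def twisted {α : Type} (neg : α → α) (a : ℕ → α) (D : ℤ) (t : α) (q m x : ℕ) : ℕ :=
  ((range x).filter (fun p => p.Prime ∧ p ≠ 2 ∧ p % q = m ∧
    ((jacobiSym D p = 1 ∧ a p = t) ∨ (jacobiSym D p = -1 ∧ neg (a p) = t)))).card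

open Classical in
/-- The number of the odd primes `p < x` with `p % q = m` such that `a p = t` or `neg (a p) = t`. -/
noncomputable def either {α : Type} (neg : α → α) (a : ℕ → α) (t : α) (q m x : ℕ) : ℕ :=
  ((range x).filter (fun p => p.Prime ∧ p ≠ 2 ∧ p % q = m ∧ (a p = t ∨ neg (a p) = t))).card

open Pool.Agent.H306R2.RZ (js)
open Pool.Agent.K4H14.QT (T mem_T)
open Pool.Agent.K4H14.LT (S W few' js_vals js_zero)

theorem js_one (D : ℤ) (p : ℕ) : js D p = 1 ↔ jacobiSym D p = 1 := by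
  unfold js
  exact_mod_cast Iff.rfl

theorem js_neg_one (D : ℤ) (p : ℕ) : js D p = -1 ↔ jacobiSym D p = -1 := by
  unfold js
  constructor
  · intro h
    exact_mod_cast h
  · intro h
    exact_mod_cast h

theorem twisted_eq {α : Type} (neg : α → α) (a : ℕ → α) (D : ℤ) (t : α) (q m x : ℕ) :
    twisted neg a D t q m x = (W neg D a t q m x).card := by
  classical
  unfold twisted W
  congr 1
  ext p
  rw [mem_filter, mem_filter, mem_T, mem_range, js_one, js_neg_one]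
  tauto

theorem either_eq {α : Type} (neg : α → α) (a : ℕ → α) (t : α) (q m x : ℕ) :
    either neg a t q m x = (S neg a t q m x).card := by
  classical
  unfold either S
  congr 1
  ext p
  rw [mem_filter, mem_filter, mem_T, mem_range]
  tauto

theorem points_twist (D : ℤ) (f : ℤ[X]) (p : ℕ) (hp : p.Prime) (hp2 : p ≠ 2) (hD : ¬ (p : ℤ) ∣ D) :
    (p : ℤ) - (points D f p : ℤ) = jacobiSym D p * ((p : ℤ) - (points 1 f p : ℤ)) := by
  classical
  have : Fact p.Prime := ⟨hp⟩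
  have hchar : ringChar (ZMod p) ≠ 2 := by
    rw [ZMod.ringChar_zmod_n]
    exact hp2
  have hD0 : (D : ZMod p) ≠ 0 := by
    rw [Ne, ZMod.intCast_zmod_eq_zero_iff_dvd]
    exact hD
  have h1 := Pool.Agent.K4H14.QT.card_twist hchar (D : ZMod p) hD0
    (fun x => (f.map (Int.castRingHom (ZMod p))).eval x)
  rw [Pool.Agent.K4H14.QT.char_pow p hp2 1 (by rw [ZMod.card, pow_one]) D hD, ZMod.card, pow_one,
    jacobiSym.legendreSym.to_jacobiSym] at h1
  unfold points
  simp only [Int.cast_one, one_mul]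
  linarith

/-- the classes: the vector of the traces at a good prime -/
noncomputable def cls {r : ℕ} (f : Fin r → ℤ[X]) (p : ℕ) : Option (Fin r → ℤ) :=
  open Classical in
  if ∀ i, ((f i).map (Int.castRingHom (ZMod p))).Separable then
    some (fun i => (p : ℤ) - (points 1 (f i) p : ℤ)) else none

/-- the negative -/
def ng {r : ℕ} : Option (Fin r → ℤ) → Option (Fin r → ℤ)
  | some t => some (-t)
  | none => none

theorem not_dvd (D : ℤ) (p : ℕ) (hp : p.Prime) (h : jacobiSym D p = 1 ∨ jacobiSym D p = -1) :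
    ¬ (p : ℤ) ∣ D := by
  intro hd
  have h1 := js_zero D p hp hd
  rcases h with h | h
  · rw [(js_one D p).2 h] at h1
    norm_num at h1
  · rw [(js_neg_one D p).2 h] at h1
    norm_num at h1

theorem cls_some {r : ℕ} (f : Fin r → ℤ[X]) (p : ℕ) (t : Fin r → ℤ) :
    cls f p = some t ↔ ((∀ i, ((f i).map (Int.castRingHom (ZMod p))).Separable) ∧
      ∀ i, (p : ℤ) - (points 1 (f i) p : ℤ) = t i) := by
  unfold cls
  split_ifs with h
  · simp only [Option.some.injEq, funext_iff]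
    exact ⟨fun h1 => ⟨h, h1⟩, fun h1 => h1.2⟩
  · constructor
    · intro h1
      cases h1
    · intro h1
      exact absurd h1.1 h

theorem ng_cls {r : ℕ} (f : Fin r → ℤ[X]) (p : ℕ) (t : Fin r → ℤ) :
    ng (cls f p) = some t ↔ ((∀ i, ((f i).map (Int.castRingHom (ZMod p))).Separable) ∧
      ∀ i, -((p : ℤ) - (points 1 (f i) p : ℤ)) = t i) := by
  have h1 : ng (cls f p) = some t ↔ cls f p = some (-t) := by
    constructor
    · intro h
      rcases h2 : cls f p with _ | s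
      · rw [h2] at h
        cases h
      · rw [h2] at h
        simp only [ng, Option.some.injEq] at h
        rw [← h, neg_neg]
    · intro h
      rw [h]
      simp [ng]
  rw [h1, cls_some]
  simp only [Pi.neg_apply]
  constructor
  · rintro ⟨h2, h3⟩
    exact ⟨h2, fun i => by rw [h3 i, neg_neg]⟩
  · rintro ⟨h2, h3⟩
    exact ⟨h2, fun i => by rw [← h3 i, neg_neg]⟩

theorem twisted_of {α : Type} (neg : α → α) (a : ℕ → α) (D : ℤ) (t : α) (q m x : ℕ) (s : Finset ℕ)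
    (h : ∀ p, p ∈ s ↔ (p < x ∧ p.Prime ∧ p ≠ 2 ∧ p % q = m ∧
      ((jacobiSym D p = 1 ∧ a p = t) ∨ (jacobiSym D p = -1 ∧ neg (a p) = t)))) :
    s.card = twisted neg a D t q m x := by
  classical
  unfold twisted
  congr 1
  ext p
  rw [mem_filter, mem_range, h]

theorem either_of {α : Type} (neg : α → α) (a : ℕ → α) (t : α) (q m x : ℕ) (s : Finset ℕ)
    (h : ∀ p, p ∈ s ↔ (p < x ∧ p.Prime ∧ p ≠ 2 ∧ p % q = m ∧ (a p = t ∨ neg (a p) = t))) :
    s.card = either neg a t q m x := by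
  classical
  unfold either
  congr 1
  ext p
  rw [mem_filter, mem_range, h]

theorem count_eq_twisted {r : ℕ} (D : ℤ) (f : Fin r → ℤ[X]) (t : Fin r → ℤ) (q m x : ℕ) :
    count D f t q m x = twisted ng (cls f) D (some t) q m x := by
  classical
  unfold count
  apply twisted_of
  intro p
  rw [mem_filter, mem_range]
  constructor
  · rintro ⟨h1, ⟨h2, h3, h4, h5⟩, h6, h7⟩
    refine ⟨h1, h2, h3, h6, ?_⟩
    rcases js_vals D p h2 h4 with h8 | h8
    · left
      have h9 := (js_one D p).1 h8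
      refine ⟨h9, (cls_some f p t).2 ⟨h5, fun i => ?_⟩⟩
      rw [← h7 i, points_twist D (f i) p h2 h3 h4, h9, one_mul]
    · right
      have h9 := (js_neg_one D p).1 h8
      refine ⟨h9, (ng_cls f p t).2 ⟨h5, fun i => ?_⟩⟩
      rw [← h7 i, points_twist D (f i) p h2 h3 h4, h9]
      ring
  · rintro ⟨h1, h2, h3, h6, h7⟩
    have h4 : ¬ (p : ℤ) ∣ D := by
      apply not_dvd D p h2
      rcases h7 with h7 | h7
      · exact Or.inl h7.1
      · exact Or.inr h7.1
    rcases h7 with ⟨h8, h9⟩ | ⟨h8, h9⟩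
    · rw [cls_some] at h9
      refine ⟨h1, ⟨h2, h3, h4, h9.1⟩, h6, fun i => ?_⟩
      rw [← h9.2 i, points_twist D (f i) p h2 h3 h4, h8, one_mul]
    · rw [ng_cls] at h9
      refine ⟨h1, ⟨h2, h3, h4, h9.1⟩, h6, fun i => ?_⟩
      rw [← h9.2 i, points_twist D (f i) p h2 h3 h4, h8]
      ring

theorem count_eq_either {r : ℕ} (f : Fin r → ℤ[X]) (t : Fin r → ℤ) (ht : t ≠ 0) (q m x : ℕ) :
    count 1 f t q m x + count 1 f (-t) q m x = either ng (cls f) (some t) q m x := by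
  classical
  unfold count
  rw [← card_union_of_disjoint]
  · apply either_of
    intro p
    rw [mem_union, mem_filter, mem_filter, mem_range, cls_some, ng_cls]
    have hg : ∀ p : ℕ, p.Prime → ¬ (p : ℤ) ∣ 1 := by
      intro p hp h
      have := Int.natCast_dvd_natCast.1 (by simpa using h : (p : ℤ) ∣ ((1 : ℕ) : ℤ))
      exact hp.one_lt.ne' (Nat.dvd_one.1 this)
    constructor
    · rintro (⟨h1, ⟨h2, h3, h4, h5⟩, h6, h7⟩ | ⟨h1, ⟨h2, h3, h4, h5⟩, h6, h7⟩)
      · exact ⟨h1, h2, h3, h6, Or.inl ⟨h5, h7⟩⟩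
      · refine ⟨h1, h2, h3, h6, Or.inr ⟨h5, fun i => ?_⟩⟩
        rw [h7 i, Pi.neg_apply, neg_neg]
    · rintro ⟨h1, h2, h3, h6, ⟨h5, h7⟩ | ⟨h5, h7⟩⟩
      · exact Or.inl ⟨h1, ⟨h2, h3, hg p h2, h5⟩, h6, h7⟩
      · refine Or.inr ⟨h1, ⟨h2, h3, hg p h2, h5⟩, h6, fun i => ?_⟩
        rw [Pi.neg_apply, ← h7 i, neg_neg]
  · rw [disjoint_left]
    intro p h1 h2
    rw [mem_filter] at h1 h2
    apply ht
    funext i
    have h3 := h1.2.2.2 i
    have h4 := h2.2.2.2 i
    rw [h3, Pi.neg_apply] at h4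
    simp only [Pi.zero_apply]
    omega

theorem result :
    -- part 1: the primes with a given vector of traces, for the twists of hyperelliptic curves
    (∀ δ ε : ℝ, 0 < δ → 0 < ε → ∃ C c : ℝ, 0 < C ∧ 0 < c ∧ ∀ᶠ N : ℕ in atTop, ∀ (r : ℕ) (f : Fin r → ℤ[X]),
      (({D : ℤ | Squarefree D ∧ |D| ≤ N ∧ ¬ ∀ x : ℕ, Real.log N ^ C ≤ x → (x : ℝ) ≤ (N : ℝ) ^ c →
        ∀ (q m : ℕ) (t : Fin r → ℤ), q ≤ x → t ≠ 0 →
          |(count D f t q m x : ℝ) - ((count 1 f t q m x : ℝ) + count 1 f (-t) q m x) / 2| ≤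
            Real.sqrt ((count 1 f t q m x : ℝ) + count 1 f (-t) q m x + 1) * (x : ℝ) ^ δ}.ncard : ℕ) : ℝ) ≤
        (N : ℝ) ^ (1 - 2 * δ + ε)) ∧
    -- part 2: arbitrary sequences of classes
    (∀ δ ε : ℝ, 0 < δ → 0 < ε → ∃ C c : ℝ, 0 < C ∧ 0 < c ∧ ∀ᶠ N : ℕ in atTop,
      ∀ (α : Type) (neg : α → α) (a : ℕ → α),
      (({D : ℤ | Squarefree D ∧ |D| ≤ N ∧ ¬ ∀ x : ℕ, Real.log N ^ C ≤ x → (x : ℝ) ≤ (N : ℝ) ^ c →
        ∀ (q m : ℕ) (t : α), q ≤ x → neg t ≠ t →
          |(twisted neg a D t q m x : ℝ) - (either neg a t q m x : ℝ) / 2| ≤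
            Real.sqrt ((either neg a t q m x : ℝ) + 1) * (x : ℝ) ^ δ}.ncard : ℕ) : ℝ) ≤
        (N : ℝ) ^ (1 - 2 * δ + ε)) := by
  have part2 : ∀ δ ε : ℝ, 0 < δ → 0 < ε → ∃ C c : ℝ, 0 < C ∧ 0 < c ∧ ∀ᶠ N : ℕ in atTop,
      ∀ (α : Type) (neg : α → α) (a : ℕ → α),
      {D : ℤ | Squarefree D ∧ |D| ≤ N ∧ ¬ ∀ x : ℕ, Real.log N ^ C ≤ x → (x : ℝ) ≤ (N : ℝ) ^ c →
        ∀ (q m : ℕ) (t : α), q ≤ x → neg t ≠ t →
          |(twisted neg a D t q m x : ℝ) - (either neg a t q m x : ℝ) / 2| ≤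
            Real.sqrt ((either neg a t q m x : ℝ) + 1) * (x : ℝ) ^ δ}.Finite ∧
      (({D : ℤ | Squarefree D ∧ |D| ≤ N ∧ ¬ ∀ x : ℕ, Real.log N ^ C ≤ x → (x : ℝ) ≤ (N : ℝ) ^ c →
        ∀ (q m : ℕ) (t : α), q ≤ x → neg t ≠ t →
          |(twisted neg a D t q m x : ℝ) - (either neg a t q m x : ℝ) / 2| ≤
            Real.sqrt ((either neg a t q m x : ℝ) + 1) * (x : ℝ) ^ δ}.ncard : ℕ) : ℝ) ≤
        (N : ℝ) ^ (1 - 2 * δ + ε) := by
    intro δ ε hδ hε
    obtain ⟨C, c, hC, hc, h⟩ := few' δ ε hδ hε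
    refine ⟨C, c, lt_of_lt_of_le one_pos hC, hc, ?_⟩
    filter_upwards [h] with N hN α neg a
    have hfin : ∀ P : ℤ → Prop, {D : ℤ | Squarefree D ∧ |D| ≤ N ∧ P D}.Finite := by
      intro P
      apply (Set.finite_Icc (-(N : ℤ)) N).subset
      rintro D ⟨_, h2, _⟩
      exact abs_le.1 h2
    refine ⟨hfin _, le_trans ?_ (hN α neg a)⟩
    have hsub : {D : ℤ | Squarefree D ∧ |D| ≤ N ∧ ¬ ∀ x : ℕ, Real.log N ^ C ≤ x → (x : ℝ) ≤ (N : ℝ) ^ c →
        ∀ (q m : ℕ) (t : α), q ≤ x → neg t ≠ t →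
          |(twisted neg a D t q m x : ℝ) - (either neg a t q m x : ℝ) / 2| ≤
            Real.sqrt ((either neg a t q m x : ℝ) + 1) * (x : ℝ) ^ δ} ⊆
        {D : ℤ | Squarefree D ∧ |D| ≤ N ∧ ∃ x : ℕ, Real.log N ^ C ≤ x ∧ (x : ℝ) ≤ (N : ℝ) ^ c ∧
        ∃ (q m : ℕ) (t : α), q ≤ x ∧ neg t ≠ t ∧ Real.sqrt ((S neg a t q m x).card + 1) * (x : ℝ) ^ δ <
          |((W neg D a t q m x).card : ℝ) - (S neg a t q m x).card / 2|} := by
      rintro D ⟨h1, h2, h3⟩
      refine ⟨h1, h2, ?_⟩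
      push Not at h3
      obtain ⟨x, hx1, hx2, q, m, t, hq, ht, h4⟩ := h3
      refine ⟨x, hx1, hx2, q, m, t, hq, ht, ?_⟩
      rw [twisted_eq, either_eq] at h4
      exact h4
    exact_mod_cast Set.ncard_le_ncard hsub (hfin _)
  refine ⟨?_, fun δ ε hδ hε => ?_⟩
  · intro δ ε hδ hε
    obtain ⟨C, c, hC, hc, h⟩ := part2 δ ε hδ hε
    refine ⟨C, c, hC, hc, ?_⟩
    filter_upwards [h] with N hN r f
    refine le_trans ?_ (hN _ ng (cls f)).2
    have hsub : {D : ℤ | Squarefree D ∧ |D| ≤ N ∧ ¬ ∀ x : ℕ, Real.log N ^ C ≤ x → (x : ℝ) ≤ (N : ℝ) ^ c →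
        ∀ (q m : ℕ) (t : Fin r → ℤ), q ≤ x → t ≠ 0 →
          |(count D f t q m x : ℝ) - ((count 1 f t q m x : ℝ) + count 1 f (-t) q m x) / 2| ≤
            Real.sqrt ((count 1 f t q m x : ℝ) + count 1 f (-t) q m x + 1) * (x : ℝ) ^ δ} ⊆
        {D : ℤ | Squarefree D ∧ |D| ≤ N ∧ ¬ ∀ x : ℕ, Real.log N ^ C ≤ x → (x : ℝ) ≤ (N : ℝ) ^ c →
        ∀ (q m : ℕ) (t : Option (Fin r → ℤ)), q ≤ x → ng t ≠ t →
          |(twisted ng (cls f) D t q m x : ℝ) - (either ng (cls f) t q m x : ℝ) / 2| ≤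
            Real.sqrt ((either ng (cls f) t q m x : ℝ) + 1) * (x : ℝ) ^ δ} := by
      rintro D ⟨h1, h2, h3⟩
      refine ⟨h1, h2, fun h4 => h3 fun x hx1 hx2 q m t hq ht => ?_⟩
      have hne : ng (some t) ≠ some t := by
        simp only [ng, ne_eq, Option.some.injEq]
        intro h5
        apply ht
        funext i
        have := congrFun h5 i
        simp only [Pi.neg_apply] at this
        simp only [Pi.zero_apply]
        omega
      have h6 := h4 x hx1 hx2 q m (some t) hq hne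
      rw [← count_eq_twisted, ← count_eq_either f t ht] at h6
      push_cast at h6
      exact h6
    exact_mod_cast Set.ncard_le_ncard hsub (hN _ ng (cls f)).1
  · obtain ⟨C, c, hC, hc, h⟩ := part2 δ ε hδ hε
    refine ⟨C, c, hC, hc, ?_⟩
    filter_upwards [h] with N hN α neg a
    exact (hN α neg a).2

end Pool.Agent.Results.MP_f1937f_nt.AllButRootManyTwists
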