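import Mathlib
import Pool.Agent.K4H16.CG.LTfam

/-! # The normal law for Lang–Trotter counts in families of elliptic curves -/

set_option autoImplicit false

namespace Pool.Agent.Results.MP_f1937f_nt.GaussianFibres

open Pool.Agent.K4H16.CG ProbabilityTheory

open Classical in
/-- **The joint normal law for Lang–Trotter counts.** Let `W 0, …, W (r - 1)` be families of Weierstrass equations whose
coefficients are polynomials in `n` variables over `ℤ`. For test functions `φ l` with `|φ l| ≤ 1`, `l < k`, let `total W (φ l) x v` be the
sum over the primes `p ≤ x` of the values of `φ l p` at the Frobenius data modulo `p` of the `r` members at the integer point `v`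
(the trace of Frobenius `a_p`, or `none` if `p` divides the discriminant). If `φ l p d` is `1` for `d i = some a` and `0` otherwise, this is the
Lang–Trotter count of the primes `p ≤ x` of good reduction of `W i` at `v` with `a_p = a`.

For all `n, k, ε` there are `A`, `κ > 0` and `V₀` such that for all such families and test functions, all `x`, and all boxes with sides at
least `x ^ A`, at any place: if the variances of the sums in the model of independent uniformly distributed residues are at least `V₀`, and their
correlations are at most `κ`, then for all real `t l` the proportion of the points `v` of the box for which every sum is at most its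
model mean plus `t l` model standard deviations differs by at most `ε` from the product of the values at the `t l` of the standard normal
distribution function. -/
theorem result (n k : ℕ) (ε : ℝ) (hε : 0 < ε) : ∃ (A : ℕ) (κ V₀ : ℝ), 0 < κ ∧
    ∀ (r : ℕ) (W : Fin r → WeierstrassCurve (MvPolynomial (Fin n) ℤ)) (φ : Fin k → ℕ → (Fin r → Option ℤ) → ℝ),
      (∀ l p d, |φ l p d| ≤ 1) →
    ∀ (x : ℕ) (M : Fin n → ℤ) (N : Fin n → ℕ), (∀ i, x ^ A ≤ N i) →
      (∀ l, V₀ ≤ cov W (φ l) (φ l) x) →
      (∀ l l', l ≠ l' → |cov W (φ l) (φ l') x| ≤ κ * √(cov W (φ l) (φ l) x) * √(cov W (φ l') (φ l') x)) →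
      ∀ t : Fin k → ℝ,
        |(((box M N).filter (fun v => ∀ l, total W (φ l) x v ≤
            mean W (φ l) x + t l * √(cov W (φ l) (φ l) x))).card : ℝ) -
              (box M N).card * ∏ l, (gaussianReal 0 1).real (Set.Iic (t l))| ≤
          ε * (box M N).card :=
  family_law n k ε hε

end Pool.Agent.Results.MP_f1937f_nt.GaussianFibres
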