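import Mathlib
import Pool.Agent.K4H16.CG.IL5

/-! # The law of the iterated logarithm for Lang–Trotter counts in families of elliptic curves: upper half -/

set_option autoImplicit false

namespace Pool.Agent.Results.MP_f1937f_nt.IteratedLogarithm

open Pool.Agent.K4H16.CG

open Classical in
/-- **The law of the iterated logarithm for Lang–Trotter counts, upper half with the sharp constant.** Let `W 0, …, W (r - 1)` be
families of Weierstrass equations whose coefficients are polynomials in `n` variables over `ℤ`, and `φ` a condition (a function with
the values `0` and `1`) on the prime `p` and the Frobenius data modulo `p` of the `r` members at the integer point `v` (the trace of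
Frobenius `a_p`, or `none` if `p` divides the discriminant). `total W φ y v` is the number of the primes `p ≤ y` that satisfy the
condition at `v`; for the condition `d i = some a` it is the Lang–Trotter count of the primes `p ≤ y` that do not divide the
discriminant of `W i` at `v`, with `a_p = a`. `mean W φ y` and `cov W φ φ y` are the mean and the variance of this number in the
model of independent uniformly distributed residues modulo the primes.

For all `n`, `ε > 0` and `0 < δ ≤ 1` there are `A` and `V₀` such that for all families and conditions, all `x` and all boxes with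
sides at least `x ^ (A log log (variance at x))`, at any place: for all but a proportion `ε` of the points of the box, simultaneously
for ALL `y ≤ x` with variance `V y ≥ V₀`, the number of the primes `p ≤ y` that satisfy the condition differs from its mean by at most
`(1 + δ) √(2 V y log log (V y))`. -/
theorem result (n : ℕ) (ε δ : ℝ) (hε : 0 < ε) (hδ : 0 < δ) (hδ1 : δ ≤ 1) : ∃ A V₀ : ℝ, 0 < A ∧ 3 ≤ V₀ ∧
    ∀ (r : ℕ) (W : Fin r → WeierstrassCurve (MvPolynomial (Fin n) ℤ)) (φ : ℕ → (Fin r → Option ℤ) → ℝ),
      (∀ p d, φ p d = 0 ∨ φ p d = 1) → ∀ (x : ℕ) (M : Fin n → ℤ) (N : Fin n → ℕ),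
      (∀ i, (x : ℝ) ^ (A * Real.log (Real.log (cov W φ φ x))) ≤ N i) →
      (1 - ε) * (box M N).card ≤ (((box M N).filter (fun v => ∀ y ≤ x, V₀ ≤ cov W φ φ y →
        |total W φ y v - mean W φ y| ≤ (1 + δ) * √(2 * cov W φ φ y * Real.log (Real.log (cov W φ φ y))))).card : ℝ) :=
  family_lil n ε δ hε hδ hδ1

end Pool.Agent.Results.MP_f1937f_nt.IteratedLogarithm
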