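import Mathlib
import Pool.Agent.K4H16.CG.LTmd

/-! # Moderate deviations of Lang–Trotter counts in families of elliptic curves -/

set_option autoImplicit false

namespace Pool.Agent.Results.MP_f1937f_nt.ModerateDeviations

open Pool.Agent.K4H16.CG

open Classical in
/-- **Moderate deviations of Lang–Trotter counts.** Let `W 0, …, W (r - 1)` be families of Weierstrass equations whose coefficients are
polynomials in `n` variables over `ℤ`. For a test function `φ` with `|φ| ≤ 1` let `total W φ x v` be the sum over the primes `p ≤ x` of
the values of `φ p` at the Frobenius data modulo `p` of the `r` members at the integer point `v` (the trace of Frobenius `a_p`, or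
`none` if `p` divides the discriminant); if `φ p d` is `1` for `d i = some a` and `0` otherwise, this is the Lang–Trotter count of
the primes `p ≤ x` of good reduction of `W i` at `v` with `a_p = a`. Let `mean W φ x` and `cov W φ φ x` be the mean and the variance
of the sum in the model of independent uniformly distributed residues modulo the primes.

For all `n` and `0 < ε ≤ 1` there are `A`, `η > 0` and `Λ` such that for all families and test functions, all `x`, all `lam ≥ Λ` with
`lam ^ 2 ≤ η * variance`, and all boxes with sides at least `x ^ (A lam ^ 2)`, at any place: the proportion of the points of the box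
at which the sum exceeds its mean by at least `lam` standard deviations is between `exp (- (1 + ε) lam ^ 2 / 2)` and
`exp (- (1 - ε) lam ^ 2 / 2)`. With `- φ` for `φ` this is also the law of the other tail. -/
theorem result (n : ℕ) (ε : ℝ) (hε : 0 < ε) (hε1 : ε ≤ 1) : ∃ (A : ℕ) (η Λ : ℝ), 0 < η ∧ 1 ≤ Λ ∧
    ∀ (r : ℕ) (W : Fin r → WeierstrassCurve (MvPolynomial (Fin n) ℤ)) (φ : ℕ → (Fin r → Option ℤ) → ℝ),
      (∀ p d, |φ p d| ≤ 1) → ∀ (x : ℕ) (lam : ℝ), Λ ≤ lam → lam ^ 2 ≤ η * cov W φ φ x →
    ∀ (M : Fin n → ℤ) (N : Fin n → ℕ), (∀ i, (x : ℝ) ^ ((A : ℝ) * lam ^ 2) ≤ N i) →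
      Real.exp (-((1 + ε) * lam ^ 2 / 2)) * (box M N).card ≤
        (((box M N).filter (fun v => mean W φ x + lam * √(cov W φ φ x) ≤ total W φ x v)).card : ℝ) ∧
      (((box M N).filter (fun v => mean W φ x + lam * √(cov W φ φ x) ≤ total W φ x v)).card : ℝ) ≤
        Real.exp (-((1 - ε) * lam ^ 2 / 2)) * (box M N).card :=
  family_md n ε hε hε1

end Pool.Agent.Results.MP_f1937f_nt.ModerateDeviations
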